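import Mathlib

/-!
The combinatorics behind the lower bound for the edge cover time of the greedy random walk on a
complete graph: `S` is the set of crossed edges, `degr S v` the number of uncrossed edges at `v`,
`odds S` the set of vertices with an odd number of uncrossed edges.
-/

open Finset

namespace Pool.Agent.R579.GRWK

variable {V : Type*} [Fintype V] [DecidableEq V]

/-- the other endpoints of the uncrossed edges at `v` -/
def free (S : Finset (Sym2 V)) (v : V) : Finset V :=
  univ.filter (fun w => w ≠ v ∧ s(v, w) ∉ S)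

/-- the vertices with an odd number of uncrossed edges -/
def odds (S : Finset (Sym2 V)) : Finset V := univ.filter (fun v => Odd (free S v).card)

/-- the uncrossed edges -/
def unc (S : Finset (Sym2 V)) : Finset (Sym2 V) := univ.filter (fun e => ¬ e.IsDiag ∧ e ∉ S)

lemma mem_free {S : Finset (Sym2 V)} {v w : V} : w ∈ free S v ↔ w ≠ v ∧ s(v, w) ∉ S := by
  simp [free]

lemma mem_unc {S : Finset (Sym2 V)} {e : Sym2 V} : e ∈ unc S ↔ ¬ e.IsDiag ∧ e ∉ S := by
  simp [unc]

lemma free_insert_left {S : Finset (Sym2 V)} {v y : V} :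
    free (insert s(v, y) S) v = (free S v).erase y := by
  ext w
  simp only [mem_free, mem_erase, Finset.mem_insert, not_or, Sym2.eq_iff]
  constructor
  · rintro ⟨h1, h2, h3⟩
    refine ⟨?_, h1, h3⟩
    rintro rfl
    exact h2.1 ⟨trivial, rfl⟩
  · rintro ⟨h1, h2, h3⟩
    exact ⟨h2, ⟨fun h => h1 h.2, fun h => h2 h.2⟩, h3⟩

lemma free_insert_other {S : Finset (Sym2 V)} {v y z : V} (h1 : z ≠ v) (h2 : z ≠ y) :
    free (insert s(v, y) S) z = free S z := by
  ext w
  simp only [mem_free, Finset.mem_insert, not_or, Sym2.eq_iff]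
  constructor
  · rintro ⟨a, _, c⟩
    exact ⟨a, c⟩
  · rintro ⟨a, c⟩
    exact ⟨a, ⟨fun h => h1 h.1, fun h => h2 h.1⟩, c⟩

lemma odd_insert {S : Finset (Sym2 V)} {v y : V} (h : y ∈ free S v) (z : V) :
    z ∈ odds (insert s(v, y) S) ↔ (z ∈ odds S ↔ ¬ (z = v ∨ z = y)) := by
  have hy := mem_free.mp h
  have hv : v ∈ free S y := by
    rw [mem_free]
    refine ⟨hy.1.symm, ?_⟩
    rw [Sym2.eq_swap]
    exact hy.2
  simp only [odds, mem_filter, mem_univ, true_and]
  by_cases h1 : z = v
  · subst h1
    rw [free_insert_left, card_erase_of_mem h]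
    have hpos : 0 < (free S z).card := card_pos.mpr ⟨y, h⟩
    simp only [true_or, not_true_eq_false, iff_false]
    rw [Nat.not_odd_iff_even, Nat.odd_iff, Nat.even_iff]
    omega
  · by_cases h2 : z = y
    · subst h2
      rw [Sym2.eq_swap, free_insert_left, card_erase_of_mem hv]
      have hpos : 0 < (free S z).card := card_pos.mpr ⟨v, hv⟩
      simp only [or_true, not_true_eq_false, iff_false]
      rw [Nat.not_odd_iff_even, Nat.odd_iff, Nat.even_iff]
      omega
    · rw [free_insert_other h1 h2]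
      simp [h1, h2]

/-- The invariant of the greedy steps. -/
lemma symm_insert {S : Finset (Sym2 V)} {v y : V} (h : y ∈ free S v) :
    symmDiff (odds (insert s(v, y) S)) {y} = symmDiff (odds S) {v} := by
  have hy := (mem_free.mp h).1
  ext z
  simp only [Finset.mem_symmDiff, mem_singleton]
  rw [odd_insert h z]
  by_cases h1 : z = v
  · subst h1
    have : z ≠ y := fun h => hy h.symm
    simp [this]
  · by_cases h2 : z = y
    · subst h2
      simp [h1]
    · simp [h1, h2]

lemma card_unc_insert {S : Finset (Sym2 V)} {v y : V} (h : y ∈ free S v) :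
    (unc S).card = (unc (insert s(v, y) S)).card + 1 := by
  have hy := mem_free.mp h
  have hm : s(v, y) ∈ unc S := by
    rw [mem_unc]
    refine ⟨?_, hy.2⟩
    rw [Sym2.mk_isDiag_iff]
    exact fun h => hy.1 h.symm
  have : unc (insert s(v, y) S) = (unc S).erase s(v, y) := by
    ext e
    simp only [mem_unc, mem_erase, Finset.mem_insert, not_or]
    tauto
  rw [this, card_erase_of_mem hm]
  have : 0 < (unc S).card := card_pos.mpr ⟨_, hm⟩
  omega

lemma free_eq_empty_of_unc {S : Finset (Sym2 V)} (h : unc S = ∅) (v : V) : free S v = ∅ := by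
  ext w
  simp only [mem_free, notMem_empty, iff_false, not_and, not_not]
  intro hw
  by_contra hc
  have : s(v, w) ∈ unc S := by
    rw [mem_unc, Sym2.mk_isDiag_iff]
    exact ⟨fun h => hw h.symm, hc⟩
  rw [h] at this
  exact notMem_empty _ this

lemma odds_eq_empty_of_unc {S : Finset (Sym2 V)} (h : unc S = ∅) : odds S = ∅ := by
  ext v
  simp [odds, free_eq_empty_of_unc h v]

/-- harmonic sum without the first term -/
noncomputable def hs (a : ℕ) : ℝ := ∑ i ∈ Finset.Icc 2 a, (1 : ℝ) / i

lemma hs_zero : hs 0 = 0 := by simp [hs]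

lemma hs_one : hs 1 = 0 := by simp [hs]

lemma hs_nonneg (a : ℕ) : 0 ≤ hs a := Finset.sum_nonneg (fun i _ => by positivity)

lemma hs_succ {a : ℕ} (h : 1 ≤ a) : hs (a + 1) = hs a + 1 / ((a : ℝ) + 1) := by
  unfold hs
  rw [Finset.sum_Icc_succ_top (by omega)]
  push_cast
  ring

lemma hs_mono {a b : ℕ} (h : a ≤ b) : hs a ≤ hs b := by
  unfold hs
  apply Finset.sum_le_sum_of_subset_of_nonneg
  · exact Finset.Icc_subset_Icc le_rfl h
  · intro i _ _
    positivity

lemma hs_incr (o : ℕ) : (o : ℝ) * (hs (o + 1) - hs (o - 1)) ≤ 2 := by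
  rcases o with _ | o
  · simp
  rcases o with _ | o
  · rw [show (0 + 1 - 1 : ℕ) = 0 from rfl, hs_zero, hs_succ le_rfl, hs_one]
    norm_num
  · rw [show (o + 1 + 1 - 1 : ℕ) = o + 1 from rfl, hs_succ (by omega), hs_succ (by omega)]
    have h1 : (0 : ℝ) < (o : ℝ) + 1 + 1 := by positivity
    have h2 : (0 : ℝ) < (o : ℝ) + 1 + 1 + 1 := by positivity
    have e0 : ((o + 1 + 1 : ℕ) : ℝ) = (o : ℝ) + 1 + 1 := by push_cast; ring
    have e0' : ((o + 1 : ℕ) : ℝ) = (o : ℝ) + 1 := by push_cast; ring
    have e1 : ((o : ℝ) + 1 + 1) * (1 / ((o : ℝ) + 1 + 1)) = 1 := by field_simp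
    have e2 : ((o : ℝ) + 1 + 1) * (1 / ((o : ℝ) + 1 + 1 + 1)) ≤ 1 := by
      rw [mul_one_div, div_le_one h2]
      linarith
    rw [e0, e0']
    calc ((o : ℝ) + 1 + 1) * (hs (o + 1) + 1 / ((o : ℝ) + 1 + 1) + 1 / ((o : ℝ) + 1 + 1 + 1) -
          hs (o + 1)) = ((o : ℝ) + 1 + 1) * (1 / ((o : ℝ) + 1 + 1)) +
            ((o : ℝ) + 1 + 1) * (1 / ((o : ℝ) + 1 + 1 + 1)) := by ring
      _ ≤ 2 := by rw [e1]; linarith

/-- the potential -/
noncomputable def pot (S : Finset (Sym2 V)) (v : V) : ℝ :=
  (unc S).card + ((Fintype.card V : ℝ) - 1) / 2 * hs (symmDiff (odds S) {v}).card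

lemma pot_nonneg (S : Finset (Sym2 V)) (v : V) : 0 ≤ pot S v := by
  unfold pot
  have h1 : (1 : ℝ) ≤ Fintype.card V := by
    exact_mod_cast Fintype.card_pos_iff.mpr ⟨v⟩
  have := hs_nonneg (symmDiff (odds S) {v}).card
  have h2 : 0 ≤ ((Fintype.card V : ℝ) - 1) / 2 := by linarith
  positivity

lemma pot_greedy {S : Finset (Sym2 V)} {v y : V} (h : y ∈ free S v) :
    pot S v = 1 + pot (insert s(v, y) S) y := by
  unfold pot
  rw [symm_insert h, card_unc_insert h]
  push_cast
  ring

lemma pot_covered {S : Finset (Sym2 V)} {v : V} (h : unc S = ∅) : pot S v = 0 := by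
  unfold pot
  rw [odds_eq_empty_of_unc h, h]
  have : (symmDiff (∅ : Finset V) {v}).card = 1 := by
    rw [show symmDiff (∅ : Finset V) {v} = {v} by
      ext z; simp [Finset.mem_symmDiff]]
    simp
  rw [this, hs_one]
  simp

lemma pot_stuck {S : Finset (Sym2 V)} {v : V} (h : free S v = ∅) :
    ((Fintype.card V : ℝ) - 1) * pot S v ≤ ((Fintype.card V : ℝ) - 1) +
      ∑ y ∈ univ.erase v, pot S y := by
  have hv : v ∉ odds S := by simp [odds, h]
  have hN : (1 : ℝ) ≤ Fintype.card V := by
    exact_mod_cast Fintype.card_pos_iff.mpr ⟨v⟩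
  have hcard : ((univ.erase v : Finset V).card : ℝ) = (Fintype.card V : ℝ) - 1 := by
    rw [card_erase_of_mem (mem_univ v), card_univ, Nat.cast_sub (Fintype.card_pos_iff.mpr ⟨v⟩)]
    simp
  have hout : ∀ y, y ∉ odds S → (symmDiff (odds S) {y}).card = (odds S).card + 1 := by
    intro y hy
    have : symmDiff (odds S) {y} = insert y (odds S) := by
      ext z
      simp only [Finset.mem_symmDiff, mem_singleton, Finset.mem_insert]
      by_cases hz : z = y
      · subst hz; simp [hy]
      · simp [hz]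
    rw [this, card_insert_of_notMem hy]
  have hin : ∀ y, y ∈ odds S → (symmDiff (odds S) {y}).card = (odds S).card - 1 := by
    intro y hy
    have : symmDiff (odds S) {y} = (odds S).erase y := by
      ext z
      simp only [Finset.mem_symmDiff, mem_singleton, mem_erase]
      by_cases hz : z = y
      · subst hz; simp [hy]
      · simp [hz]
    rw [this, card_erase_of_mem hy]
  have hsub : odds S ⊆ univ.erase v := by
    intro z hz
    rw [mem_erase]
    exact ⟨fun h => hv (h ▸ hz), mem_univ _⟩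
  have hsum : ∑ y ∈ univ.erase v, hs (symmDiff (odds S) {y}).card =
      (odds S).card * hs ((odds S).card - 1) +
        ((Fintype.card V : ℝ) - 1 - (odds S).card) * hs ((odds S).card + 1) := by
    rw [← Finset.sum_sdiff hsub, add_comm]
    congr 1
    · rw [Finset.sum_congr rfl (fun y hy => by rw [hin y hy]), Finset.sum_const, nsmul_eq_mul]
    · rw [Finset.sum_congr rfl (fun y hy => by rw [hout y (Finset.mem_sdiff.mp hy).2]),
        Finset.sum_const, nsmul_eq_mul, Finset.card_sdiff_of_subset hsub,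
        Nat.cast_sub (card_le_card hsub), hcard]
  unfold pot
  rw [Finset.sum_add_distrib, Finset.sum_const, nsmul_eq_mul, hcard, ← Finset.mul_sum, hsum,
    hout v hv]
  have := hs_incr (odds S).card
  have h2 : 0 ≤ ((Fintype.card V : ℝ) - 1) / 2 := by linarith
  nlinarith [mul_le_mul_of_nonneg_left this h2]

end Pool.Agent.R579.GRWK
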