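import Mathlib
import Pool.Agent.H575R3.GRWBase
import Pool.Agent.H575R3.GRWStep
import Pool.Agent.R579.GRWK.Pot

/-!
Lower bound for the expected edge cover time of the greedy random walk on a complete graph, by
the potential of `Pool.Agent.R579.GRWK.Pot`.
-/

open MeasureTheory Finset
open scoped ENNReal
open Pool.Agent.H575R3.GRW

namespace Pool.Agent.R579.GRWK

/-- The first time at which the set of crossed edges is the whole edge set (`∞` if there is no
such time). -/
noncomputable def coverTime {V : Type*} [DecidableEq V] (G : SimpleGraph V) (x : ℕ → V) : ℝ≥0∞ :=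
  ⨅ (t : ℕ) (_ : (crossed x t : Set (Sym2 V)) = G.edgeSet), (t : ℝ≥0∞)

variable {V : Type*} [Fintype V] [DecidableEq V]

lemma fresh_top (x : ℕ → V) (t : ℕ) :
    fresh (⊤ : SimpleGraph V) x t = free (crossed x t) (x t) := by
  ext w
  simp only [fresh, free, Finset.mem_filter, SimpleGraph.mem_neighborFinset,
    SimpleGraph.top_adj, Finset.mem_univ, true_and]
  constructor
  · rintro ⟨h, h'⟩
    exact ⟨h.symm, h'⟩
  · rintro ⟨h, h'⟩
    exact ⟨h.symm, h'⟩

lemma nbr_top (v : V) : (⊤ : SimpleGraph V).neighborFinset v = univ.erase v := by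
  ext w
  simp only [SimpleGraph.mem_neighborFinset, SimpleGraph.top_adj, Finset.mem_erase,
    Finset.mem_univ, and_true]
  exact ne_comm

/-- the potential along a sequence -/
noncomputable def F (t : ℕ) (x : ℕ → V) : ℝ≥0∞ := ENNReal.ofReal (pot (crossed x t) (x t))

/-- the indicator of not having covered -/
noncomputable def U (t : ℕ) (x : ℕ → V) : ℝ≥0∞ := if unc (crossed x t) = ∅ then 0 else 1

lemma F_dep (t : ℕ) : DepLE t (F t : (ℕ → V) → ℝ≥0∞) := by
  intro x y h
  unfold F
  rw [crossed_congr h, h t le_rfl]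

lemma U_dep (t : ℕ) : DepLE t (U t : (ℕ → V) → ℝ≥0∞) := by
  intro x y h
  unfold U
  rw [crossed_congr h]

lemma F_update (t : ℕ) (x : ℕ → V) (y : V) :
    F (t + 1) (Function.update x (t + 1) y) =
      ENNReal.ofReal (pot (insert s(x t, y) (crossed x t)) y) := by
  unfold F
  have h : ∀ s ≤ t, Function.update x (t + 1) y s = x s := fun s hs =>
    Function.update_of_ne (by omega) _ _
  rw [crossed_succ, crossed_congr h, h t le_rfl, Function.update_self]

theorem step_ineq (hN : 2 ≤ Fintype.card V) (x : ℕ → V) (t : ℕ) :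
    F t x ≤ U t x + ∑' y, stepProb (⊤ : SimpleGraph V) x t y *
      F (t + 1) (Function.update x (t + 1) y) := by
  by_cases hU : unc (crossed x t) = ∅
  · have : F t x = 0 := by
      unfold F
      rw [pot_covered hU]
      simp
    rw [this]
    exact bot_le
  have hU1 : U t x = 1 := by
    unfold U
    rw [if_neg hU]
  rw [hU1]
  by_cases hf : (fresh (⊤ : SimpleGraph V) x t).Nonempty
  · rw [tsum_step_fresh hf]
    have hk : ∀ y ∈ fresh (⊤ : SimpleGraph V) x t,
        ENNReal.ofReal (pot (crossed x t) (x t) - 1) =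
          F (t + 1) (Function.update x (t + 1) y) := by
      intro y hy
      rw [fresh_top] at hy
      rw [F_update, pot_greedy hy]
      congr 1
      ring
    have hsum : ∑ y ∈ fresh (⊤ : SimpleGraph V) x t,
        ((fresh (⊤ : SimpleGraph V) x t).card : ℝ≥0∞)⁻¹ *
          F (t + 1) (Function.update x (t + 1) y) =
        ∑ y ∈ fresh (⊤ : SimpleGraph V) x t,
          ((fresh (⊤ : SimpleGraph V) x t).card : ℝ≥0∞)⁻¹ *
          ENNReal.ofReal (pot (crossed x t) (x t) - 1) :=
      Finset.sum_congr rfl (fun y hy => by rw [hk y hy])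
    rw [hsum]
    rw [Finset.sum_const, nsmul_eq_mul, ← mul_assoc, ENNReal.mul_inv_cancel, one_mul]
    · unfold F
      have : pot (crossed x t) (x t) = 1 + (pot (crossed x t) (x t) - 1) := by ring
      conv_lhs => rw [this]
      refine (ENNReal.ofReal_add_le).trans ?_
      rw [ENNReal.ofReal_one]
    · exact_mod_cast (Finset.card_pos.mpr hf).ne'
    · exact ENNReal.natCast_ne_top _
  · rw [tsum_step_stuck hf]
    have he : free (crossed x t) (x t) = ∅ := by
      rw [← fresh_top]
      exact Finset.not_nonempty_iff_eq_empty.mp hf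
    have hk : ∀ y ∈ univ.erase (x t),
        F (t + 1) (Function.update x (t + 1) y) = ENNReal.ofReal (pot (crossed x t) y) := by
      intro y hy
      rw [F_update]
      have hm : s(x t, y) ∈ crossed x t := by
        by_contra hc
        have : y ∈ free (crossed x t) (x t) := mem_free.mpr ⟨(Finset.mem_erase.mp hy).1, hc⟩
        rw [he] at this
        exact Finset.notMem_empty _ this
      rw [Finset.insert_eq_of_mem hm]
    rw [nbr_top, Finset.sum_congr rfl (fun y hy => by rw [hk y hy]), ← Finset.mul_sum,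
      ← ENNReal.ofReal_sum_of_nonneg (fun y _ => pot_nonneg _ _)]
    have hcard : ((univ.erase (x t) : Finset V).card : ℝ) = (Fintype.card V : ℝ) - 1 := by
      rw [card_erase_of_mem (mem_univ _), card_univ, Nat.cast_sub (by omega)]
      simp
    have hpos : (0 : ℝ) < (Fintype.card V : ℝ) - 1 := by
      have : (2 : ℝ) ≤ Fintype.card V := by exact_mod_cast hN
      linarith
    have hinv : ((univ.erase (x t) : Finset V).card : ℝ≥0∞)⁻¹ =
        ENNReal.ofReal (((Fintype.card V : ℝ) - 1)⁻¹) := by
      rw [ENNReal.ofReal_inv_of_pos hpos, ← hcard, ENNReal.ofReal_natCast]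
    rw [hinv, ← ENNReal.ofReal_mul (by positivity), ← ENNReal.ofReal_one,
      ← ENNReal.ofReal_add zero_le_one]
    · unfold F
      apply ENNReal.ofReal_le_ofReal
      have := pot_stuck he
      have h2 : ((Fintype.card V : ℝ) - 1) * pot (crossed x t) (x t) ≤
          ((Fintype.card V : ℝ) - 1) * (1 + ((Fintype.card V : ℝ) - 1)⁻¹ *
            ∑ y ∈ univ.erase (x t), pot (crossed x t) y) := by
        rw [mul_add, mul_one, ← mul_assoc, mul_inv_cancel₀ hpos.ne', one_mul]
        exact this
      exact le_of_mul_le_mul_left h2 hpos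
    · exact mul_nonneg (by positivity) (Finset.sum_nonneg (fun y _ => pot_nonneg _ _))

lemma not_covered {x : ℕ → V} {s t : ℕ}
    (hc : (crossed x t : Set (Sym2 V)) = (⊤ : SimpleGraph V).edgeSet)
    (hU : unc (crossed x s) ≠ ∅) : s < t := by
  by_contra hlt
  push Not at hlt
  apply hU
  ext e
  simp only [Finset.notMem_empty, iff_false]
  intro he
  rw [mem_unc] at he
  apply he.2
  apply crossed_mono x hlt
  rw [← Finset.mem_coe, hc]
  simpa using he.1

lemma sum_U_le (x : ℕ → V) (T : ℕ) :
    ∑ s ∈ Finset.range T, U s x ≤ coverTime (⊤ : SimpleGraph V) x := by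
  unfold coverTime
  refine le_iInf₂ (fun t hc => ?_)
  have h1 : ∑ s ∈ Finset.range T, U s x =
      (((Finset.range T).filter (fun s => unc (crossed x s) ≠ ∅)).card : ℝ≥0∞) := by
    rw [Finset.card_filter]
    push_cast
    apply Finset.sum_congr rfl
    intro s _
    unfold U
    by_cases h : unc (crossed x s) = ∅ <;> simp [h]
  rw [h1]
  have h2 : ((Finset.range T).filter (fun s => unc (crossed x s) ≠ ∅)).card ≤ t := by
    calc ((Finset.range T).filter (fun s => unc (crossed x s) ≠ ∅)).card
        ≤ (Finset.range t).card := by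
          apply Finset.card_le_card
          intro s hs
          rw [Finset.mem_range]
          exact not_covered hc (Finset.mem_filter.mp hs).2
      _ = t := Finset.card_range t
  exact_mod_cast h2

lemma mul_U_le (x : ℕ → V) (T : ℕ) :
    (T : ℝ≥0∞) * U T x ≤ coverTime (⊤ : SimpleGraph V) x := by
  unfold U
  by_cases h : unc (crossed x T) = ∅
  · simp [h]
  · rw [if_neg h, mul_one]
    unfold coverTime
    refine le_iInf₂ (fun t hc => ?_)
    have := not_covered hc h
    exact_mod_cast this.le

lemma pot_le (S : Finset (Sym2 V)) (v : V) :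
    pot S v ≤ (univ : Finset (Sym2 V)).card +
      ((Fintype.card V : ℝ) - 1) / 2 * hs (Fintype.card V) := by
  unfold pot
  have h1 : ((unc S).card : ℝ) ≤ (univ : Finset (Sym2 V)).card := by
    exact_mod_cast Finset.card_le_card (Finset.subset_univ _)
  have h2 : hs (symmDiff (odds S) {v}).card ≤ hs (Fintype.card V) :=
    hs_mono (Finset.card_le_univ _)
  have hN : (1 : ℝ) ≤ Fintype.card V := by
    exact_mod_cast Fintype.card_pos_iff.mpr ⟨v⟩
  have h3 : 0 ≤ ((Fintype.card V : ℝ) - 1) / 2 := by linarith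
  have h4 := mul_le_mul_of_nonneg_left h2 h3
  linarith

lemma F_le (t : ℕ) (x : ℕ → V) :
    F t x ≤ ENNReal.ofReal ((univ : Finset (Sym2 V)).card +
      ((Fintype.card V : ℝ) - 1) / 2 * hs (Fintype.card V)) * U t x := by
  unfold F U
  by_cases h : unc (crossed x t) = ∅
  · rw [pot_covered h]
    simp
  · rw [if_neg h, mul_one]
    exact ENNReal.ofReal_le_ofReal (pot_le _ _)

section proc

variable {Ω : Type*} [MeasurableSpace Ω] {o : V} {P : Measure Ω} {X : ℕ → Ω → V}

lemma telescope (hN : 2 ≤ Fintype.card V) (h : IsGRW (⊤ : SimpleGraph V) o P X) (T : ℕ) :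
    ∫⁻ ω, F 0 (fun s => X s ω) ∂P ≤
      ∑ t ∈ Finset.range T, ∫⁻ ω, U t (fun s => X s ω) ∂P +
        ∫⁻ ω, F T (fun s => X s ω) ∂P := by
  induction T with
  | zero => simp
  | succ T ih =>
    refine ih.trans ?_
    rw [Finset.sum_range_succ, add_assoc]
    refine add_le_add_right ?_ _
    rw [h.lintegral_step T (F (T + 1)) (F_dep (T + 1)),
      ← lintegral_add_left (h.measurable_dep T (U T) (U_dep T))]
    exact lintegral_mono (fun ω => step_ineq hN _ T)

theorem lower (hN : 2 ≤ Fintype.card V) (h : IsGRW (⊤ : SimpleGraph V) o P X) :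
    ∫⁻ ω, F 0 (fun s => X s ω) ∂P ≤
      ∫⁻ ω, coverTime (⊤ : SimpleGraph V) (fun s => X s ω) ∂P := by
  set E := ∫⁻ ω, coverTime (⊤ : SimpleGraph V) (fun s => X s ω) ∂P with hE
  by_cases hfin : E = ∞
  · rw [hfin]
    exact le_top
  set B := ENNReal.ofReal ((univ : Finset (Sym2 V)).card +
      ((Fintype.card V : ℝ) - 1) / 2 * hs (Fintype.card V)) with hB
  have hBfin : B ≠ ∞ := ENNReal.ofReal_ne_top
  have hsum : ∀ T, ∑ t ∈ Finset.range T, ∫⁻ ω, U t (fun s => X s ω) ∂P ≤ E := by
    intro T
    rw [← lintegral_finsetSum _ (fun t _ => h.measurable_dep t (U t) (U_dep t))]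
    exact lintegral_mono (fun ω => sum_U_le _ T)
  have hmul : ∀ T : ℕ, (T : ℝ≥0∞) * ∫⁻ ω, U T (fun s => X s ω) ∂P ≤ E := by
    intro T
    rw [← lintegral_const_mul _ (h.measurable_dep T (U T) (U_dep T))]
    exact lintegral_mono (fun ω => mul_U_le _ T)
  have hlast : ∀ T : ℕ, 1 ≤ T → ∫⁻ ω, F T (fun s => X s ω) ∂P ≤ B * (E / T) := by
    intro T hT
    calc ∫⁻ ω, F T (fun s => X s ω) ∂P
        ≤ ∫⁻ ω, B * U T (fun s => X s ω) ∂P := lintegral_mono (fun ω => F_le T _)
      _ = B * ∫⁻ ω, U T (fun s => X s ω) ∂P :=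
          lintegral_const_mul _ (h.measurable_dep T (U T) (U_dep T))
      _ ≤ B * (E / T) := by
          gcongr
          rw [ENNReal.le_div_iff_mul_le (Or.inl (by exact_mod_cast (by omega : T ≠ 0)))
            (Or.inl (ENNReal.natCast_ne_top T)), mul_comm]
          exact hmul T
  have hall : ∀ᶠ T : ℕ in Filter.atTop,
      ∫⁻ ω, F 0 (fun s => X s ω) ∂P ≤ E + B * (E / T) := by
    filter_upwards [Filter.eventually_ge_atTop 1] with T hT
    exact (telescope hN h T).trans (add_le_add (hsum T) (hlast T hT))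
  have hlim : Filter.Tendsto (fun T : ℕ => E + B * (E / T)) Filter.atTop (nhds (E + B * 0)) := by
    refine tendsto_const_nhds.add (ENNReal.Tendsto.const_mul ?_ (Or.inr hBfin))
    have := ENNReal.Tendsto.const_div (m := fun T : ℕ => (T : ℝ≥0∞)) (a := E)
      ENNReal.tendsto_nat_nhds_top (Or.inr hfin)
    simpa using this
  rw [mul_zero, add_zero] at hlim
  exact ge_of_tendsto hlim hall

/-- At time `0` the potential on a complete graph with an even number of vertices. -/
lemma pot_start (hev : Even (Fintype.card V)) (v : V) :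
    pot (∅ : Finset (Sym2 V)) v = (Fintype.card V).choose 2 +
      ((Fintype.card V : ℝ) - 1) / 2 * hs (Fintype.card V - 1) := by
  have hfree : ∀ w : V, free (∅ : Finset (Sym2 V)) w = univ.erase w := by
    intro w
    ext z
    simp [mem_free]
  have hodds : odds (∅ : Finset (Sym2 V)) = univ := by
    ext w
    simp only [odds, Finset.mem_filter, Finset.mem_univ, true_and, iff_true]
    rw [hfree, card_erase_of_mem (mem_univ _), card_univ]
    have : 0 < Fintype.card V := Fintype.card_pos_iff.mpr ⟨w⟩
    rw [Nat.even_iff] at hev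
    rw [Nat.odd_iff]
    omega
  have hsym : symmDiff (univ : Finset V) {v} = univ.erase v := by
    ext z
    simp [Finset.mem_symmDiff]
  have hunc : (unc (∅ : Finset (Sym2 V))).card = (Fintype.card V).choose 2 := by
    rw [← Sym2.card_subtype_not_diag, Fintype.card_subtype]
    congr 1
    ext e
    simp [mem_unc]
  unfold pot
  rw [hodds, hsym, hunc, card_erase_of_mem (mem_univ _), card_univ]

/-- The lower bound. -/
theorem main (hev : Even (Fintype.card V)) (h : IsGRW (⊤ : SimpleGraph V) o P X) :
    ENNReal.ofReal ((Fintype.card V).choose 2 +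
      ((Fintype.card V : ℝ) - 1) / 2 * hs (Fintype.card V - 1)) ≤
      ∫⁻ ω, coverTime (⊤ : SimpleGraph V) (fun s => X s ω) ∂P := by
  have hN : 2 ≤ Fintype.card V := by
    have : 0 < Fintype.card V := Fintype.card_pos_iff.mpr ⟨o⟩
    rw [Nat.even_iff] at hev
    omega
  refine le_trans (le_of_eq ?_) (lower hN h)
  have : IsProbabilityMeasure P := ⟨h.prob⟩
  have hc : ∀ ω, F 0 (fun s => X s ω) = ENNReal.ofReal ((Fintype.card V).choose 2 +
      ((Fintype.card V : ℝ) - 1) / 2 * hs (Fintype.card V - 1)) := by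
    intro ω
    unfold F
    rw [crossed_zero, pot_start hev]
  simp only [hc, lintegral_const, measure_univ, mul_one]

end proc

end Pool.Agent.R579.GRWK
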